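import Mathlib

section
set_option autoImplicit false

/-!
# Integer certificate for the edge Turan density of the 3-dimensional cube

Local inequality on the `2 ^ 12 - 1` non-empty sets of edges of the 3-cube, checked in the kernel.
The matrices are stored as big natural numbers (17 bits per entry, shifted by `40000`).
-/

namespace Pool.Agent.Lib.MP53850c

/-- table for a kept root edge -/
def tabK : ℕ := 1728346626366984460983602342298272093643557879246717827165286570563494499116996349959054136372839860545409998366285384455625867299011611816993931597613214647189819208338790823925046507280633452094614053799145820818597111232313275731559806410090408362432600172006051011255211955731196660224091623539546573999164366393485733441592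

/-- table for a removed root edge -/
def tabR : ℕ := 1562300797510641573884104691434470840057942608489861922226924625087148557325394062970140467547836080691577753763173726273733702296906616379367325101733368502852554056859503437061399129613325974015918844315674841250534693980751851675550227117776934460979255001886301179226883569078969150001317300556507435846449714824188289654212

/-- index of a flag -/
def fidx (a b c : Bool) : ℕ := a.toNat + 2 * b.toNat + 4 * c.toNat

/-- shifted matrix entry -/
def Mt (t a b c a' b' c' : Bool) : ℕ :=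
  ((cond t tabR tabK) >>> (17 * (8 * fidx a b c + fidx a' b' c'))) % 131072

/-- the vectors of the certificate -/
def lv : Bool → ℕ → List ℤ

  | false, 0 => [-30, 55, 55, -168, 21, 30, 30, 73]
  | false, 1 => [-36, 24, 24, -14, 122, -25, -25, -130]
  | false, 2 => [54, -67, -67, -76, -103, -19, -19, 78]
  | false, 3 => [0, 102, -102, 0, 0, 140, -140, 0]
  | false, 4 => [0, -97, 97, 0, 0, -5, 5, 0]
  | true, 0 => [8, -18, -18, -40, 63, -36, -36, -53]
  | true, 1 => [-8, 21, 21, 72, -13, -2, -2, 74]
  | true, 2 => [-16, 32, 32, -51, 1, 15, 15, 116]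
  | true, 3 => [2, -4, -4, 94, -53, -14, -14, -3]
  | true, 4 => [0, -68, 68, 0, 0, -144, 144, 0]
  | true, 5 => [0, 34, -34, 0, 0, 2, -2, 0]
  | _, _ => [0, 0, 0, 0, 0, 0, 0, 0]

/-- value of the `r`-th vector of type `t` at a flag -/
def lvec (t : Bool) (r : ℕ) (a b c : Bool) : ℤ := (lv t r).getD (fidx a b c) 0

/-- the two positive semidefinite matrices -/
def M (t a b c a' b' c' : Bool) : ℤ :=
  lvec t 0 a b c * lvec t 0 a' b' c' + lvec t 1 a b c * lvec t 1 a' b' c' +
  lvec t 2 a b c * lvec t 2 a' b' c' + lvec t 3 a b c * lvec t 3 a' b' c' +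
  lvec t 4 a b c * lvec t 4 a' b' c' + lvec t 5 a b c * lvec t 5 a' b' c'

/-- for all booleans, as a fast boolean function -/
def allB (f : Bool → Bool) : Bool := f false && f true

theorem allB_spec {f : Bool → Bool} (h : allB f = true) (b : Bool) : f b = true := by
  unfold allB at h
  rw [Bool.and_eq_true] at h
  cases b
  · exact h.1
  · exact h.2

theorem Mt_eq (t a b c a' b' c' : Bool) :
    (Mt t a b c a' b' c' : ℤ) = M t a b c a' b' c' + 40000 := by
  revert t a b c a' b' c'
  decide

/-- diagonal bound -/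
theorem M_diag_le (t a b c : Bool) : M t a b c a b c ≤ 34196 := by
  revert t a b c
  decide

/-- one term of the check -/
def tm (t a b c a' b' c' : Bool) : ℕ := Mt t a b c a' b' c'

/-- leaf check: `A b c` edges in direction `i`, `B a c` in direction `j`, `C a b` in direction `k`. -/
def leaf (A00 A10 A01 A11 B00 B10 B01 B11 C00 C10 C01 C11 : Bool) : Bool :=
  (!(A00 || A10 || A01 || A11 || B00 || B10 || B01 || B11 || C00 || C10 || C01 || C11)) ||
  Nat.ble
   (45591 +
    (Mt A00 B00 B10 A10 C00 C10 A01 + Mt A10 B00 B10 A00 C01 C11 A11 +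
     Mt A01 B01 B11 A11 C00 C10 A00 + Mt A11 B01 B11 A01 C01 C11 A10 +
     Mt B00 C00 C01 B01 A00 A10 B10 + Mt B10 C10 C11 B11 A00 A10 B00 +
     Mt B01 C00 C01 B00 A01 A11 B11 + Mt B11 C10 C11 B10 A01 A11 B01 +
     Mt C00 A00 A01 C10 B00 B01 C01 + Mt C10 A00 A01 C00 B10 B11 C11 +
     Mt C01 A10 A11 C11 B00 B01 C00 + Mt C11 A10 A11 C01 B10 B11 C10))
   (480000 + 25843 * (A00.toNat + A10.toNat + A01.toNat + A11.toNat + B00.toNat + B10.toNat +
     B01.toNat + B11.toNat + C00.toNat + C10.toNat + C01.toNat + C11.toNat))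

set_option maxRecDepth 100000 in
theorem leaf_all : allB (fun A00 => allB (fun A10 => allB (fun A01 => allB (fun A11 =>
    allB (fun B00 => allB (fun B10 => allB (fun B01 => allB (fun B11 =>
    allB (fun C00 => allB (fun C10 => allB (fun C01 => allB (fun C11 =>
      leaf A00 A10 A01 A11 B00 B10 B01 B11 C00 C10 C01 C11)))))))))))) = true := by
  decide +kernel

end Pool.Agent.Lib.MP53850c
end

section
set_option autoImplicit false

/-!
# Edge density of 3-cube hitting sets in the hypercube : the averaging argument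
-/

namespace Pool.Agent.Lib.MP53850c

open Finset

variable {n : ℕ}

/-- translate of `v` by the combination of the basis vectors `i, j, k` selected by `a, b, c` -/
def sh (v : Fin n → Bool) (i j k : Fin n) (a b c : Bool) : Fin n → Bool :=
  fun t => xor (v t) (xor (a && decide (t = i)) (xor (b && decide (t = j)) (c && decide (t = k))))

/-- flip coordinate `i` -/
def fl (v : Fin n → Bool) (i : Fin n) : Fin n → Bool := fun t => xor (v t) (decide (t = i))

theorem fl_fl (v : Fin n → Bool) (i : Fin n) : fl (fl v i) i = v := by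
  funext t
  simp [fl]

theorem fl_sh_i (v : Fin n → Bool) (i j k : Fin n) (a b c : Bool) :
    fl (sh v i j k a b c) i = sh v i j k (!a) b c := by
  funext t
  simp only [fl, sh]
  generalize v t = w
  generalize decide (t = i) = p
  generalize decide (t = j) = q
  generalize decide (t = k) = r
  revert a b c w p q r
  decide

theorem fl_sh_j (v : Fin n → Bool) (i j k : Fin n) (a b c : Bool) :
    fl (sh v i j k a b c) j = sh v i j k a (!b) c := by
  funext t
  simp only [fl, sh]
  generalize v t = w
  generalize decide (t = i) = p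
  generalize decide (t = j) = q
  generalize decide (t = k) = r
  revert a b c w p q r
  decide

theorem fl_sh_k (v : Fin n → Bool) (i j k : Fin n) (a b c : Bool) :
    fl (sh v i j k a b c) k = sh v i j k a b (!c) := by
  funext t
  simp only [fl, sh]
  generalize v t = w
  generalize decide (t = i) = p
  generalize decide (t = j) = q
  generalize decide (t = k) = r
  revert a b c w p q r
  decide

theorem sh_sh (v : Fin n → Bool) (i j k : Fin n) (a b c : Bool) :
    sh (sh v i j k a b c) i j k a b c = v := by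
  funext t
  simp only [sh]
  generalize v t = w
  generalize decide (t = i) = p
  generalize decide (t = j) = q
  generalize decide (t = k) = r
  revert a b c w p q r
  decide

/-- translation invariance of sums over the vertices -/
theorem sum_sh (i j k : Fin n) (a b c : Bool) (g : (Fin n → Bool) → ℤ) :
    ∑ v, g (sh v i j k a b c) = ∑ v, g v := by
  have hinv : Function.Involutive (fun v : Fin n → Bool => sh v i j k a b c) :=
    fun v => sh_sh v i j k a b c
  exact Equiv.sum_comp hinv.toPerm g

/-- ordered triples of pairwise distinct directions -/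
def T (n : ℕ) : Finset (Fin n × Fin n × Fin n) :=
  univ.filter (fun t => t.1 ≠ t.2.1 ∧ t.1 ≠ t.2.2 ∧ t.2.1 ≠ t.2.2)

theorem sum_cyc (h : Fin n → Fin n → Fin n → ℤ) :
    ∑ t ∈ T n, h t.2.1 t.2.2 t.1 = ∑ t ∈ T n, h t.1 t.2.1 t.2.2 := by
  refine Finset.sum_nbij' (fun t => (t.2.1, t.2.2, t.1)) (fun t => (t.2.2, t.1, t.2.1)) ?_ ?_ ?_ ?_ ?_
  · intro t ht
    simp only [T, Finset.mem_filter, Finset.mem_univ, true_and] at ht ⊢
    exact ⟨ht.2.2, Ne.symm ht.1, Ne.symm ht.2.1⟩
  · intro t ht
    simp only [T, Finset.mem_filter, Finset.mem_univ, true_and] at ht ⊢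
    exact ⟨Ne.symm ht.2.1, Ne.symm ht.2.2, ht.1⟩
  · intro t _; rfl
  · intro t _; rfl
  · intro t _; rfl

theorem sum_cyc2 (h : Fin n → Fin n → Fin n → ℤ) :
    ∑ t ∈ T n, h t.2.2 t.1 t.2.1 = ∑ t ∈ T n, h t.1 t.2.1 t.2.2 := by
  rw [← sum_cyc (fun i j k => h k i j)]

/-- local function attached to a frame `(v; i, j, k)` -/
def g (x : (Fin n → Bool) → Fin n → Bool) (v : Fin n → Bool) (i j k : Fin n) : ℤ :=
  25843 * ((x v i).toNat : ℤ) -
    M (x v i) (x v j) (x (fl v i) j) (x (fl v j) i) (x v k) (x (fl v i) k) (x (fl v k) i)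

theorem leaf_ineq (A00 A10 A01 A11 B00 B10 B01 B11 C00 C10 C01 C11 : Bool)
    (h : (A00 || A10 || A01 || A11 || B00 || B10 || B01 || B11 || C00 || C10 || C01 || C11) =
      true) :
    45591 +
    (Mt A00 B00 B10 A10 C00 C10 A01 + Mt A10 B00 B10 A00 C01 C11 A11 +
     Mt A01 B01 B11 A11 C00 C10 A00 + Mt A11 B01 B11 A01 C01 C11 A10 +
     Mt B00 C00 C01 B01 A00 A10 B10 + Mt B10 C10 C11 B11 A00 A10 B00 +
     Mt B01 C00 C01 B00 A01 A11 B11 + Mt B11 C10 C11 B10 A01 A11 B01 +
     Mt C00 A00 A01 C10 B00 B01 C01 + Mt C10 A00 A01 C00 B10 B11 C11 +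
     Mt C01 A10 A11 C11 B00 B01 C00 + Mt C11 A10 A11 C01 B10 B11 C10) ≤
   (480000 + 25843 * (A00.toNat + A10.toNat + A01.toNat + A11.toNat + B00.toNat + B10.toNat +
     B01.toNat + B11.toNat + C00.toNat + C10.toNat + C01.toNat + C11.toNat)) := by
  have h1 := allB_spec (allB_spec (allB_spec (allB_spec (allB_spec (allB_spec (allB_spec
    (allB_spec (allB_spec (allB_spec (allB_spec (allB_spec leaf_all A00) A10) A01) A11)
      B00) B10) B01) B11) C00) C10) C01) C11
  unfold leaf at h1
  rw [h] at h1
  simp only [Bool.not_true, Bool.false_or] at h1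
  exact Nat.le_of_ble_eq_true h1

theorem local_ineq (x : (Fin n → Bool) → Fin n → Bool) (hx : ∀ v i, x (fl v i) i = x v i)
    (v : Fin n → Bool) (i j k : Fin n)
    (hit : ∃ a b c, x (sh v i j k a b c) i = true ∨ x (sh v i j k a b c) j = true ∨
      x (sh v i j k a b c) k = true) :
    45591 ≤
      (g x (sh v i j k false false false) i j k + g x (sh v i j k false true false) i j k +
       g x (sh v i j k false false true) i j k + g x (sh v i j k false true true) i j k) +
      (g x (sh v i j k false false false) j k i + g x (sh v i j k true false false) j k i +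
       g x (sh v i j k false false true) j k i + g x (sh v i j k true false true) j k i) +
      (g x (sh v i j k false false false) k i j + g x (sh v i j k true false false) k i j +
       g x (sh v i j k false true false) k i j + g x (sh v i j k true true false) k i j) := by
  have hi : ∀ b c, x (sh v i j k true b c) i = x (sh v i j k false b c) i := by
    intro b c
    have := hx (sh v i j k false b c) i
    rw [fl_sh_i] at this
    exact this
  have hj : ∀ a c, x (sh v i j k a true c) j = x (sh v i j k a false c) j := by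
    intro a c
    have := hx (sh v i j k a false c) j
    rw [fl_sh_j] at this
    exact this
  have hk : ∀ a b, x (sh v i j k a b true) k = x (sh v i j k a b false) k := by
    intro a b
    have := hx (sh v i j k a b false) k
    rw [fl_sh_k] at this
    exact this
  have hor : (x (sh v i j k false false false) i || x (sh v i j k false true false) i ||
      x (sh v i j k false false true) i || x (sh v i j k false true true) i ||
      x (sh v i j k false false false) j || x (sh v i j k true false false) j ||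
      x (sh v i j k false false true) j || x (sh v i j k true false true) j ||
      x (sh v i j k false false false) k || x (sh v i j k true false false) k ||
      x (sh v i j k false true false) k || x (sh v i j k true true false) k) = true := by
    obtain ⟨a, b, c, h | h | h⟩ := hit
    · cases a <;> cases b <;> cases c <;> (try simp only [hi] at h) <;> simp [h]
    · cases a <;> cases b <;> cases c <;> (try simp only [hj] at h) <;> simp [h]
    · cases a <;> cases b <;> cases c <;> (try simp only [hk] at h) <;> simp [h]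
  have key := leaf_ineq _ _ _ _ _ _ _ _ _ _ _ _ hor
  simp only [g, fl_sh_i, fl_sh_j, fl_sh_k, Bool.not_true, Bool.not_false, hi, hj, hk]
  have key2 := (Nat.cast_le (α := ℤ)).mpr key
  push_cast at key2
  simp only [Mt_eq] at key2
  linarith

end Pool.Agent.Lib.MP53850c
end

section
set_option autoImplicit false

namespace Pool.Agent.Lib.MP53850c

open Finset

variable {n : ℕ}

theorem T_sum (F : Fin n → Fin n → Fin n → ℤ) :
    ∑ t ∈ T n, F t.1 t.2.1 t.2.2 =
      ∑ i, (∑ j ∈ univ.erase i, ∑ k ∈ univ.erase i, F i j k - ∑ j ∈ univ.erase i, F i j j) := by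
  rw [T, Finset.sum_filter, Fintype.sum_prod_type]
  apply Finset.sum_congr rfl
  intro i _
  rw [Fintype.sum_prod_type, ← Finset.sum_sub_distrib]
  have h1 : ∀ j, (∑ k, if i ≠ j ∧ i ≠ k ∧ j ≠ k then F i j k else 0) =
      if i ≠ j then (∑ k ∈ univ.erase i, F i j k - F i j j) else 0 := by
    intro j
    by_cases hij : i = j
    · simp [hij]
    · simp only [ne_eq, hij, not_false_eq_true, true_and, if_true]
      have hj : j ∈ univ.erase i := Finset.mem_erase.2 ⟨fun h => hij h.symm, Finset.mem_univ j⟩
      rw [← Finset.sum_erase_eq_sub hj, ← Finset.sum_filter]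
      apply Finset.sum_congr _ (fun _ _ => rfl)
      ext k
      simp only [Finset.mem_filter, Finset.mem_univ, true_and, Finset.mem_erase, and_true]
      constructor
      · rintro ⟨h1, h2⟩; exact ⟨fun h => h2 h.symm, fun h => h1 h.symm⟩
      · rintro ⟨h1, h2⟩; exact ⟨fun h => h2 h.symm, fun h => h1 h.symm⟩
  simp only [h1]
  rw [← Finset.sum_filter]
  apply Finset.sum_congr _ (fun _ _ => rfl)
  ext j
  simp only [Finset.mem_filter, Finset.mem_univ, true_and, Finset.mem_erase, and_true, ne_eq]
  exact ⟨fun h h' => h h'.symm, fun h h' => h h'.symm⟩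

/-- flag at the rooted edge `(v, i)` in direction `j`, evaluated by the `r`-th vector -/
def lf (x : (Fin n → Bool) → Fin n → Bool) (v : Fin n → Bool) (i : Fin n) (r : ℕ) (j : Fin n) : ℤ :=
  lvec (x v i) r (x v j) (x (fl v i) j) (x (fl v j) i)

theorem M_lf (x : (Fin n → Bool) → Fin n → Bool) (v : Fin n → Bool) (i j k : Fin n) :
    M (x v i) (x v j) (x (fl v i) j) (x (fl v j) i) (x v k) (x (fl v i) k) (x (fl v k) i) =
      ∑ r ∈ range 6, lf x v i r j * lf x v i r k := by
  simp only [M, lf, Finset.sum_range_succ, Finset.sum_range_zero, zero_add]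

theorem psd (x : (Fin n → Bool) → Fin n → Bool) (v : Fin n → Bool) (i : Fin n)
    (E : Finset (Fin n)) :
    0 ≤ ∑ j ∈ E, ∑ k ∈ E,
      M (x v i) (x v j) (x (fl v i) j) (x (fl v j) i) (x v k) (x (fl v i) k) (x (fl v k) i) := by
  have h : ∑ j ∈ E, ∑ k ∈ E,
      M (x v i) (x v j) (x (fl v i) j) (x (fl v j) i) (x v k) (x (fl v i) k) (x (fl v k) i) =
      ∑ r ∈ range 6, (∑ j ∈ E, lf x v i r j) * (∑ k ∈ E, lf x v i r k) := by
    simp only [M_lf]
    simp only [Finset.sum_mul_sum]
    rw [Finset.sum_comm' (s := range 6) (t := fun _ => E) (t' := E) (s' := fun _ => range 6)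
      (by intro a b; tauto)]
    apply Finset.sum_congr rfl
    intro j _
    rw [Finset.sum_comm]
  rw [h]
  exact Finset.sum_nonneg (fun r _ => mul_self_nonneg _)

theorem upper (x : (Fin n → Bool) → Fin n → Bool) (hn : 1 ≤ n) :
    ∑ t ∈ T n, ∑ v, g x v t.1 t.2.1 t.2.2 ≤
      25843 * (((n : ℤ) - 1) * (n - 2)) * ∑ v, ∑ i, ((x v i).toNat : ℤ) +
        34196 * ((2 : ℤ) ^ n * n * (n - 1)) := by
  rw [Finset.sum_comm]
  have hcard : ∀ i : Fin n, ((univ.erase i).card : ℤ) = n - 1 := by
    intro i
    rw [Finset.card_erase_of_mem (Finset.mem_univ i), Finset.card_univ, Fintype.card_fin]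
    omega
  have h1 : ∀ v : Fin n → Bool, ∑ t ∈ T n, g x v t.1 t.2.1 t.2.2 ≤
      ∑ i, (25843 * (((n : ℤ) - 1) * (n - 2)) * ((x v i).toNat : ℤ) + 34196 * (n - 1)) := by
    intro v
    rw [T_sum]
    apply Finset.sum_le_sum
    intro i _
    have hp := psd x v i (univ.erase i)
    have hd : ∑ j ∈ univ.erase i, M (x v i) (x v j) (x (fl v i) j) (x (fl v j) i) (x v j)
        (x (fl v i) j) (x (fl v j) i) ≤ 34196 * ((n : ℤ) - 1) := by
      have : ∑ j ∈ univ.erase i, M (x v i) (x v j) (x (fl v i) j) (x (fl v j) i) (x v j)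
        (x (fl v i) j) (x (fl v j) i) ≤ ∑ j ∈ univ.erase i, (34196 : ℤ) := by
        apply Finset.sum_le_sum
        intro j _
        exact M_diag_le _ _ _ _
      rw [Finset.sum_const, nsmul_eq_mul, hcard] at this
      linarith
    simp only [g, Finset.sum_sub_distrib, Finset.sum_const, nsmul_eq_mul, hcard]
    nlinarith
  calc ∑ v, ∑ t ∈ T n, g x v t.1 t.2.1 t.2.2
      ≤ ∑ v : Fin n → Bool, ∑ i, (25843 * (((n : ℤ) - 1) * (n - 2)) * ((x v i).toNat : ℤ) +
        34196 * (n - 1)) := Finset.sum_le_sum (fun v _ => h1 v)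
    _ = _ := by
      simp only [Finset.sum_add_distrib, ← Finset.mul_sum, Finset.sum_const, Finset.card_univ,
        Fintype.card_fin, Fintype.card_pi, Fintype.card_bool, Finset.prod_const, nsmul_eq_mul]
      push_cast
      ring

theorem T_card (hn : 2 ≤ n) : ((T n).card : ℤ) = n * (n - 1) * (n - 2) := by
  have := T_sum (n := n) (fun _ _ _ => 1)
  simp only [Finset.sum_const, nsmul_eq_mul, mul_one, Finset.card_univ, Fintype.card_fin] at this
  rw [this]
  have hcard : ∀ i : Fin n, ((univ.erase i).card : ℤ) = n - 1 := by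
    intro i
    rw [Finset.card_erase_of_mem (Finset.mem_univ i), Finset.card_univ, Fintype.card_fin]
    omega
  simp only [hcard, Finset.sum_const, nsmul_eq_mul, Finset.card_univ, Fintype.card_fin]
  ring

/-- The global inequality. -/
theorem global_ineq (hn : 2 ≤ n) (x : (Fin n → Bool) → Fin n → Bool)
    (hx : ∀ v i, x (fl v i) i = x v i)
    (hit : ∀ (v : Fin n → Bool) (i j k : Fin n), i ≠ j → i ≠ k → j ≠ k →
      ∃ a b c, x (sh v i j k a b c) i = true ∨ x (sh v i j k a b c) j = true ∨
        x (sh v i j k a b c) k = true) :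
    45591 * ((2 : ℤ) ^ n * (n * (n - 1) * (n - 2))) ≤
      12 * (25843 * (((n : ℤ) - 1) * (n - 2)) * ∑ v, ∑ i, ((x v i).toNat : ℤ) +
        34196 * ((2 : ℤ) ^ n * n * (n - 1))) := by
  have hup := upper x (by omega : 1 ≤ n)
  set S := ∑ t ∈ T n, ∑ v, g x v t.1 t.2.1 t.2.2 with hS
  -- the three families of frames
  have e1 : ∀ a b c, ∑ t ∈ T n, ∑ v, g x (sh v t.1 t.2.1 t.2.2 a b c) t.1 t.2.1 t.2.2 = S := by
    intro a b c
    apply Finset.sum_congr rfl
    intro t _
    exact sum_sh t.1 t.2.1 t.2.2 a b c (fun v => g x v t.1 t.2.1 t.2.2)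
  have e2 : ∀ a b c, ∑ t ∈ T n, ∑ v, g x (sh v t.1 t.2.1 t.2.2 a b c) t.2.1 t.2.2 t.1 = S := by
    intro a b c
    rw [hS, ← sum_cyc (fun i j k => ∑ v, g x v i j k)]
    apply Finset.sum_congr rfl
    intro t _
    exact sum_sh t.1 t.2.1 t.2.2 a b c (fun v => g x v t.2.1 t.2.2 t.1)
  have e3 : ∀ a b c, ∑ t ∈ T n, ∑ v, g x (sh v t.1 t.2.1 t.2.2 a b c) t.2.2 t.1 t.2.1 = S := by
    intro a b c
    rw [hS, ← sum_cyc2 (fun i j k => ∑ v, g x v i j k)]
    apply Finset.sum_congr rfl
    intro t _
    exact sum_sh t.1 t.2.1 t.2.2 a b c (fun v => g x v t.2.2 t.1 t.2.1)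
  have hlow : ∑ t ∈ T n, ∑ v : Fin n → Bool, (45591 : ℤ) ≤ 12 * S := by
    have : 12 * S = ∑ t ∈ T n, ∑ v,
      ((g x (sh v t.1 t.2.1 t.2.2 false false false) t.1 t.2.1 t.2.2 +
        g x (sh v t.1 t.2.1 t.2.2 false true false) t.1 t.2.1 t.2.2 +
        g x (sh v t.1 t.2.1 t.2.2 false false true) t.1 t.2.1 t.2.2 +
        g x (sh v t.1 t.2.1 t.2.2 false true true) t.1 t.2.1 t.2.2) +
      (g x (sh v t.1 t.2.1 t.2.2 false false false) t.2.1 t.2.2 t.1 +
        g x (sh v t.1 t.2.1 t.2.2 true false false) t.2.1 t.2.2 t.1 +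
        g x (sh v t.1 t.2.1 t.2.2 false false true) t.2.1 t.2.2 t.1 +
        g x (sh v t.1 t.2.1 t.2.2 true false true) t.2.1 t.2.2 t.1) +
      (g x (sh v t.1 t.2.1 t.2.2 false false false) t.2.2 t.1 t.2.1 +
        g x (sh v t.1 t.2.1 t.2.2 true false false) t.2.2 t.1 t.2.1 +
        g x (sh v t.1 t.2.1 t.2.2 false true false) t.2.2 t.1 t.2.1 +
        g x (sh v t.1 t.2.1 t.2.2 true true false) t.2.2 t.1 t.2.1)) := by
      simp only [Finset.sum_add_distrib, e1, e2, e3]
      ring
    rw [this]
    apply Finset.sum_le_sum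
    intro t ht
    apply Finset.sum_le_sum
    intro v _
    simp only [T, Finset.mem_filter, Finset.mem_univ, true_and] at ht
    exact local_ineq x hx v t.1 t.2.1 t.2.2 (hit v t.1 t.2.1 t.2.2 ht.1 ht.2.1 ht.2.2)
  simp only [Finset.sum_const, nsmul_eq_mul, Finset.card_univ, Fintype.card_pi,
    Fintype.card_bool, Finset.prod_const, Fintype.card_fin, T_card hn] at hlow
  push_cast at hlow
  linarith

end Pool.Agent.Lib.MP53850c
end
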